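import Mathlib
import Pool.Agent.H10.CedDefs
import Pool.Agent.H10.KnotMain

set_option autoImplicit false

namespace Pool.Agent.Results.MP_a8759f_co.AllSpaces

open Pool.Agent.H10.Ced in
/-- Every finite complex of dimension at least three has the realization of a complex that is not
both pure and shellable. -/
theorem result (Δ : Cx) (h : IsCx Δ) (h3 : ∃ s ∈ Δ, 4 ≤ s.card) : ∃ Γ : Cx, IsCx Γ ∧
    Nonempty (real Γ ≃ₜ real Δ) ∧ ¬ ((∃ d, Pure d Γ) ∧ Shellable Γ) :=
  Pool.Agent.H10.Knot.main Δ h h3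

end Pool.Agent.Results.MP_a8759f_co.AllSpaces
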